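import Mathlib

/-!
Crossing segments and triangles (Beer index).
-/

set_option autoImplicit false

namespace Pool.Agent.R515.BI

open MeasureTheory Set

/-- twice the signed area of the triangle `a b c` -/
def dt (a b c : ℝ × ℝ) : ℝ := (b.1 - a.1) * (c.2 - a.2) - (b.2 - a.2) * (c.1 - a.1)

lemma dt_cyc (a b c : ℝ × ℝ) : dt b c a = dt a b c := by unfold dt; ring
lemma dt_swap (a b c : ℝ × ℝ) : dt a c b = - dt a b c := by unfold dt; ring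

/-- a triangle with boundary in `S` and at least the area `τ / 4` -/
def Tri (S : Set (ℝ × ℝ)) (τ : ℝ) : Prop :=
  ∃ a b c : ℝ × ℝ, segment ℝ a b ⊆ S ∧ segment ℝ b c ⊆ S ∧ segment ℝ c a ⊆ S ∧
    τ / 2 ≤ |dt a b c|

/-- two crossing segments give a triangle -/
lemma cross {S : Set (ℝ × ℝ)} {x x' y y' z : ℝ × ℝ} {s r τ : ℝ} (hτ : 0 < τ) (hs0 : 0 ≤ s)
    (hs1 : s ≤ 1) (hr0 : 0 ≤ r) (hr1 : r ≤ 1) (hz : z = (1 - s) • x + s • y)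
    (hz' : z = (1 - r) • x' + r • y') (h1 : segment ℝ x y ⊆ S) (h2 : segment ℝ x y' ⊆ S)
    (h3 : segment ℝ x' y ⊆ S) (h4 : segment ℝ x' y' ⊆ S) (a1 : τ ≤ |dt x y y'|)
    (a2 : τ ≤ |dt x x' y|) : Tri S τ := by
  have hzxy : z ∈ segment ℝ x y := ⟨1 - s, s, by linarith, hs0, by ring, hz.symm⟩
  have hzxy' : z ∈ segment ℝ x' y' := ⟨1 - r, r, by linarith, hr0, by ring, hz'.symm⟩
  rcases le_total (1 / 2) s with h | h
  · refine ⟨z, x, y', ?_, h2, ?_, ?_⟩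
    · exact ((convex_segment x y).segment_subset hzxy (left_mem_segment ℝ x y)).trans h1
    · exact ((convex_segment x' y').segment_subset (right_mem_segment ℝ x' y') hzxy').trans h4
    · have e : dt z x y' = - (s * dt x y y') := by
        rw [hz]; unfold dt; simp; ring
      rw [e, abs_neg, abs_mul, abs_of_nonneg hs0]
      nlinarith [abs_nonneg (dt x y y')]
  · refine ⟨z, x', y, ?_, h3, ?_, ?_⟩
    · exact ((convex_segment x' y').segment_subset hzxy' (left_mem_segment ℝ x' y')).trans h4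
    · exact ((convex_segment x y).segment_subset (right_mem_segment ℝ x y) hzxy).trans h1
    · have e : dt z x' y = (1 - s) * dt x x' y := by
        rw [hz]; unfold dt; simp; ring
      rw [e, abs_mul, abs_of_nonneg (by linarith : (0 : ℝ) ≤ 1 - s)]
      nlinarith [abs_nonneg (dt x x' y)]

/-- one of the types of crossings -/
lemma cross1 {S : Set (ℝ × ℝ)} {x₁ x₂ x₃ y y' : ℝ × ℝ} {τ : ℝ} (hτ : 0 < τ)
    (hab : 0 < dt x₁ x₂ y * dt x₁ x₂ y')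
    (hQ : 0 < dt x₁ x₂ y' * dt x₁ x₂ x₃ *
      (dt x₁ x₂ y * dt x₂ x₃ y' - dt x₂ x₃ y * dt x₁ x₂ y'))
    (hR : 0 < dt x₁ x₂ y' * dt x₁ x₂ x₃ *
      (dt x₃ x₁ y * dt x₁ x₂ y' - dt x₁ x₂ y * dt x₃ x₁ y'))
    (h1 : segment ℝ x₁ y ⊆ S) (h2 : segment ℝ x₁ y' ⊆ S)
    (h3 : segment ℝ x₂ y ⊆ S) (h4 : segment ℝ x₂ y' ⊆ S) (a1 : τ ≤ |dt x₁ y y'|)
    (a2 : τ ≤ |dt x₁ x₂ y|) : Tri S τ := by
  have e0 : dt x₁ x₂ y' * dt x₁ x₂ x₃ + (dt x₁ x₂ y * dt x₂ x₃ y' - dt x₂ x₃ y * dt x₁ x₂ y') =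
      dt x₁ x₂ y * dt x₁ x₂ x₃ + (dt x₃ x₁ y * dt x₁ x₂ y' - dt x₁ x₂ y * dt x₃ x₁ y') := by
    unfold dt; ring
  have e1 : (dt x₁ x₂ y * dt x₂ x₃ y' - dt x₂ x₃ y * dt x₁ x₂ y') * x₁.1 +
      dt x₁ x₂ y' * dt x₁ x₂ x₃ * y.1 =
      (dt x₃ x₁ y * dt x₁ x₂ y' - dt x₁ x₂ y * dt x₃ x₁ y') * x₂.1 +
      dt x₁ x₂ y * dt x₁ x₂ x₃ * y'.1 := by
    unfold dt; ring
  have e2 : (dt x₁ x₂ y * dt x₂ x₃ y' - dt x₂ x₃ y * dt x₁ x₂ y') * x₁.2 +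
      dt x₁ x₂ y' * dt x₁ x₂ x₃ * y.2 =
      (dt x₃ x₁ y * dt x₁ x₂ y' - dt x₁ x₂ y * dt x₃ x₁ y') * x₂.2 +
      dt x₁ x₂ y * dt x₁ x₂ x₃ * y'.2 := by
    unfold dt; ring
  have hA : 0 < dt x₁ x₂ y' * dt x₁ x₂ x₃ * (dt x₁ x₂ y * dt x₁ x₂ x₃) := by
    have hD : dt x₁ x₂ x₃ ≠ 0 := by
      intro h; rw [h] at hQ; simp at hQ
    have : 0 < dt x₁ x₂ x₃ ^ 2 := by positivity
    nlinarith [mul_pos hab this]
  generalize dt x₁ x₂ y' * dt x₁ x₂ x₃ = P at *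
  generalize dt x₁ x₂ y * dt x₂ x₃ y' - dt x₂ x₃ y * dt x₁ x₂ y' = Q at *
  generalize dt x₃ x₁ y * dt x₁ x₂ y' - dt x₁ x₂ y * dt x₃ x₁ y' = R at *
  generalize dt x₁ x₂ y * dt x₁ x₂ x₃ = A at *
  have hP : P ≠ 0 := by rintro rfl; simp at hQ
  have hP2 : 0 < P ^ 2 := by positivity
  have hΔ : P + Q ≠ 0 := by
    intro h
    have : P * (P + Q) = 0 := by rw [h, mul_zero]
    nlinarith
  have hΔ2 : 0 < P * (P + Q) := by nlinarith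
  have hfrac : ∀ u v : ℝ, 0 < P * u → 0 < P * v → u + v = P + Q →
      0 ≤ u / (P + Q) ∧ u / (P + Q) ≤ 1 ∧ 1 - u / (P + Q) = v / (P + Q) := by
    intro u v hu hv huv
    have e : u / (P + Q) = (P * u) / (P * (P + Q)) := by
      rw [mul_div_mul_left _ _ hP]
    refine ⟨?_, ?_, ?_⟩
    · rw [e]; positivity
    · rw [e, div_le_one hΔ2, ← huv]; nlinarith
    · rw [← huv] at hΔ ⊢
      field_simp
      ring
  obtain ⟨s0, s1, s2⟩ := hfrac P Q (by nlinarith) hQ rfl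
  obtain ⟨r0, r1, r2⟩ := hfrac A R hA hR e0.symm
  refine cross (x := x₁) (x' := x₂) (y := y) (y' := y') (s := P / (P + Q)) (r := A / (P + Q)) hτ
    s0 s1 r0 r1 rfl ?_ h1 h2 h3 h4 a1 a2
  rw [s2, r2]
  apply Prod.ext
  · simp only [Prod.fst_add, Prod.smul_fst, smul_eq_mul]
    field_simp
    linarith
  · simp only [Prod.snd_add, Prod.smul_snd, smul_eq_mul]
    field_simp
    linarith

/-- crossings for one pair -/
lemma cross2 {S : Set (ℝ × ℝ)} {x₁ x₂ x₃ y y' : ℝ × ℝ} {τ : ℝ} (hτ : 0 < τ)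
    (hD : dt x₁ x₂ x₃ ≠ 0) (hab : 0 < dt x₁ x₂ y * dt x₁ x₂ y')
    (hQR : 0 < (dt x₁ x₂ y * dt x₂ x₃ y' - dt x₂ x₃ y * dt x₁ x₂ y') *
      (dt x₃ x₁ y * dt x₁ x₂ y' - dt x₁ x₂ y * dt x₃ x₁ y'))
    (h1 : segment ℝ x₁ y ⊆ S) (h2 : segment ℝ x₁ y' ⊆ S)
    (h3 : segment ℝ x₂ y ⊆ S) (h4 : segment ℝ x₂ y' ⊆ S) (a1 : τ ≤ |dt x₁ y y'|)
    (a2 : τ ≤ |dt x₁ x₂ y|) (a3 : τ ≤ |dt x₁ x₂ y'|) : Tri S τ := by
  have hb : dt x₁ x₂ y' ≠ 0 := by rintro h; rw [h] at hab; simp at hab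
  have ha : dt x₁ x₂ y ≠ 0 := by rintro h; rw [h] at hab; simp at hab
  have hPne : dt x₁ x₂ y' * dt x₁ x₂ x₃ ≠ 0 := mul_ne_zero hb hD
  have hPa : 0 < (dt x₁ x₂ y' * dt x₁ x₂ x₃) * (dt x₁ x₂ y * dt x₁ x₂ x₃) := by
    have : 0 < dt x₁ x₂ x₃ ^ 2 := by positivity
    nlinarith [mul_pos hab this]
  obtain ⟨Q, hQ⟩ : ∃ Q, Q = dt x₁ x₂ y * dt x₂ x₃ y' - dt x₂ x₃ y * dt x₁ x₂ y' := ⟨_, rfl⟩
  obtain ⟨R, hR⟩ : ∃ R, R = dt x₃ x₁ y * dt x₁ x₂ y' - dt x₁ x₂ y * dt x₃ x₁ y' := ⟨_, rfl⟩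
  rw [← hQ, ← hR] at hQR
  have hQ0 : Q ≠ 0 := by rintro rfl; simp at hQR
  rcases lt_or_gt_of_ne (mul_ne_zero hPne hQ0) with h | h
  · -- second type
    have hA : (dt x₁ x₂ y * dt x₁ x₂ x₃) * Q < 0 := by
      by_contra hcon
      push Not at hcon
      have := mul_nonneg hcon hPa.le
      have e : (dt x₁ x₂ y * dt x₁ x₂ x₃) * Q *
        ((dt x₁ x₂ y' * dt x₁ x₂ x₃) * (dt x₁ x₂ y * dt x₁ x₂ x₃)) =
        (dt x₁ x₂ y * dt x₁ x₂ x₃) ^ 2 * ((dt x₁ x₂ y' * dt x₁ x₂ x₃) * Q) := by ring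
      rw [e] at this
      have h5 : 0 < (dt x₁ x₂ y * dt x₁ x₂ x₃) ^ 2 := by
        have := mul_ne_zero ha hD
        positivity
      nlinarith
    have hA' : (dt x₁ x₂ y * dt x₁ x₂ x₃) * R < 0 := by
      by_contra hcon
      push Not at hcon
      have := mul_nonneg hcon hQR.le
      have e : (dt x₁ x₂ y * dt x₁ x₂ x₃) * R * (Q * R) =
        R ^ 2 * ((dt x₁ x₂ y * dt x₁ x₂ x₃) * Q) := by ring
      rw [e] at this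
      have hR0 : R ≠ 0 := by rintro rfl; simp at hQR
      have h5 : 0 < R ^ 2 := by positivity
      nlinarith
    refine cross1 (x₁ := x₁) (x₂ := x₂) (x₃ := x₃) (y := y') (y' := y) hτ (by linarith) ?_ ?_ h2 h1
      h4 h3 (by rw [dt_swap, abs_neg]; exact a1) a3
    · have : dt x₁ x₂ y' * dt x₂ x₃ y - dt x₂ x₃ y' * dt x₁ x₂ y = - Q := by rw [hQ]; ring
      rw [this]; linarith
    · have : dt x₃ x₁ y' * dt x₁ x₂ y - dt x₁ x₂ y' * dt x₃ x₁ y = - R := by rw [hR]; ring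
      rw [this]; linarith
  · refine cross1 (x₁ := x₁) (x₂ := x₂) (x₃ := x₃) (y := y) (y' := y') hτ hab ?_ ?_ h1 h2
      h3 h4 a1 a2
    · rw [← hQ]; exact h
    · rw [← hR]
      by_contra hcon
      push Not at hcon
      have := mul_nonneg (neg_nonneg.mpr hcon) hQR.le
      have e : -(dt x₁ x₂ y' * dt x₁ x₂ x₃ * R) * (Q * R) =
        - (R ^ 2 * ((dt x₁ x₂ y' * dt x₁ x₂ x₃) * Q)) := by ring
      rw [e] at this
      have hR0 : R ≠ 0 := by rintro rfl; simp at hQR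
      have h5 : 0 < R ^ 2 := by positivity
      nlinarith

/-- five points -/
lemma five_points {S : Set (ℝ × ℝ)} {x₁ x₂ x₃ y y' : ℝ × ℝ} {τ : ℝ} (hτ : 0 < τ)
    (hD : τ ≤ |dt x₁ x₂ x₃|)
    (h1 : 0 < dt x₁ x₂ y * dt x₁ x₂ y') (h2 : 0 < dt x₂ x₃ y * dt x₂ x₃ y')
    (h3 : 0 < dt x₃ x₁ y * dt x₃ x₁ y')
    (s1 : segment ℝ x₁ y ⊆ S) (s1' : segment ℝ x₁ y' ⊆ S)
    (s2 : segment ℝ x₂ y ⊆ S) (s2' : segment ℝ x₂ y' ⊆ S)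
    (s3 : segment ℝ x₃ y ⊆ S) (s3' : segment ℝ x₃ y' ⊆ S)
    (b1 : τ ≤ |dt x₁ y y'|) (b2 : τ ≤ |dt x₂ y y'|) (b3 : τ ≤ |dt x₃ y y'|)
    (c1 : τ ≤ |dt x₁ x₂ y|) (c2 : τ ≤ |dt x₂ x₃ y|) (c3 : τ ≤ |dt x₃ x₁ y|)
    (c1' : τ ≤ |dt x₁ x₂ y'|) (c2' : τ ≤ |dt x₂ x₃ y'|) (c3' : τ ≤ |dt x₃ x₁ y'|) :
    Tri S τ := by
  have hne : ∀ {r : ℝ}, τ ≤ |r| → r ≠ 0 := by
    rintro r h rfl
    rw [abs_zero] at h
    linarith
  have hD0 := hne hD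
  -- the three quantities
  have q31 : dt x₁ x₂ y * dt x₂ x₃ y' - dt x₂ x₃ y * dt x₁ x₂ y' = dt x₁ x₂ x₃ * dt x₂ y y' := by
    unfold dt; ring
  have q23 : dt x₃ x₁ y * dt x₁ x₂ y' - dt x₁ x₂ y * dt x₃ x₁ y' = dt x₁ x₂ x₃ * dt x₁ y y' := by
    unfold dt; ring
  have q12 : dt x₂ x₃ y * dt x₃ x₁ y' - dt x₃ x₁ y * dt x₂ x₃ y' = dt x₁ x₂ x₃ * dt x₃ y y' := by
    unfold dt; ring
  have n1 : dt x₁ x₂ x₃ * dt x₁ y y' ≠ 0 := mul_ne_zero hD0 (hne b1)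
  have n2 : dt x₁ x₂ x₃ * dt x₂ y y' ≠ 0 := mul_ne_zero hD0 (hne b2)
  have n3 : dt x₁ x₂ x₃ * dt x₃ y y' ≠ 0 := mul_ne_zero hD0 (hne b3)
  have key : 0 < (dt x₁ x₂ x₃ * dt x₂ y y') * (dt x₁ x₂ x₃ * dt x₁ y y') ∨
      0 < (dt x₁ x₂ x₃ * dt x₃ y y') * (dt x₁ x₂ x₃ * dt x₂ y y') ∨
      0 < (dt x₁ x₂ x₃ * dt x₁ y y') * (dt x₁ x₂ x₃ * dt x₃ y y') := by
    generalize dt x₁ x₂ x₃ * dt x₁ y y' = u at *
    generalize dt x₁ x₂ x₃ * dt x₂ y y' = v at *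
    generalize dt x₁ x₂ x₃ * dt x₃ y y' = w at *
    rcases lt_or_gt_of_ne n1 with a | a <;> rcases lt_or_gt_of_ne n2 with b | b <;>
      rcases lt_or_gt_of_ne n3 with c | c
    · left; exact mul_pos_of_neg_of_neg b a
    · left; exact mul_pos_of_neg_of_neg b a
    · right; right; exact mul_pos_of_neg_of_neg a c
    · right; left; exact mul_pos c b
    · right; left; exact mul_pos_of_neg_of_neg c b
    · right; right; exact mul_pos a c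
    · left; exact mul_pos b a
    · left; exact mul_pos b a
  rcases key with h | h | h
  · exact cross2 (x₁ := x₁) (x₂ := x₂) (x₃ := x₃) hτ hD0 h1 (by rw [q31, q23]; exact h) s1 s1' s2 s2'
      b1 c1 c1'
  · refine cross2 (x₁ := x₂) (x₂ := x₃) (x₃ := x₁) hτ (by rw [dt_cyc]; exact hD0) h2 ?_ s2 s2' s3 s3'
      b2 c2 c2'
    rw [q12, q31]; exact h
  · refine cross2 (x₁ := x₃) (x₂ := x₁) (x₃ := x₂) hτ (by rw [dt_cyc, dt_cyc]; exact hD0) h3 ?_ s3 s3'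
      s1 s1' b3 c3 c3'
    rw [q23, q12]; exact h

end Pool.Agent.R515.BI
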