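import Pool.Agent.R515.BI.Meas

/-!
Lower bound for the measure of the good 5-tuples (Beer index).
-/

set_option autoImplicit false

namespace Pool.Agent.R515.BI

open MeasureTheory Set

lemma t3 (v c : NNReal) : 3 * (c : ENNReal) ^ 2 * v ≤ (v : ENNReal) ^ 3 + 2 * (c : ENNReal) ^ 3 := by
  have h : 3 * c ^ 2 * v ≤ v ^ 3 + 2 * c ^ 3 := by
    rw [← NNReal.coe_le_coe]
    push_cast
    have h1 := v.coe_nonneg
    have h2 := c.coe_nonneg
    nlinarith [mul_nonneg (sq_nonneg ((v : ℝ) - c)) (by linarith : (0 : ℝ) ≤ v + 2 * c)]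
  exact_mod_cast h

lemma t2 (v c : NNReal) : 2 * (c : ENNReal) * v ≤ (v : ENNReal) ^ 2 + (c : ENNReal) ^ 2 := by
  have h : 2 * c * v ≤ v ^ 2 + c ^ 2 := by
    rw [← NNReal.coe_le_coe]
    push_cast
    nlinarith [sq_nonneg ((v : ℝ) - c)]
  exact_mod_cast h

/-- visibility of `y` from three points -/
def WW (E : Set ((ℝ × ℝ) × (ℝ × ℝ))) : Set (X3 × (ℝ × ℝ)) :=
  {q | (q.1.1, q.2) ∈ E ∧ (q.1.2.1, q.2) ∈ E ∧ (q.1.2.2, q.2) ∈ E}

/-- the position with respect to the three lines -/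
noncomputable def sig (x : X3) (y : ℝ × ℝ) : Bool × Bool × Bool :=
  (decide (0 < dt x.1 x.2.1 y), decide (0 < dt x.2.1 x.2.2 y), decide (0 < dt x.2.2 x.1 y))

def WS (E : Set ((ℝ × ℝ) × (ℝ × ℝ))) (s : Bool × Bool × Bool) : Set (X3 × (ℝ × ℝ)) :=
  {q | q ∈ WW E ∧ sig q.1 q.2 = s}

def HH (E : Set ((ℝ × ℝ) × (ℝ × ℝ))) (s : Bool × Bool × Bool) : Set (X3 × ((ℝ × ℝ) × (ℝ × ℝ))) :=
  {p | (p.1, p.2.1) ∈ WS E s ∧ (p.1, p.2.2) ∈ WS E s}

lemma dec_meas {α : Type*} [MeasurableSpace α] {f : α → ℝ} (hf : Measurable f) (b : Bool) :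
    MeasurableSet {q | decide (0 < f q) = b} := by
  cases b
  · have : {q | decide (0 < f q) = false} = {q | f q ≤ 0} := by ext q; simp
    rw [this]
    exact measurableSet_le hf measurable_const
  · have : {q | decide (0 < f q) = true} = {q | 0 < f q} := by ext q; simp
    rw [this]
    exact measurableSet_lt measurable_const hf

variable {E : Set ((ℝ × ℝ) × (ℝ × ℝ))}

lemma WW_meas (hE : MeasurableSet E) : MeasurableSet (WW E) :=
  ((by fun_prop : Measurable fun q : X3 × (ℝ × ℝ) => (q.1.1, q.2)) hE).inter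
    (((by fun_prop : Measurable fun q : X3 × (ℝ × ℝ) => (q.1.2.1, q.2)) hE).inter
      ((by fun_prop : Measurable fun q : X3 × (ℝ × ℝ) => (q.1.2.2, q.2)) hE))

lemma WS_meas (hE : MeasurableSet E) (s : Bool × Bool × Bool) : MeasurableSet (WS E s) := by
  have h1 : MeasurableSet {q : X3 × (ℝ × ℝ) | decide (0 < dt q.1.1 q.1.2.1 q.2) = s.1} :=
    dec_meas (dt_meas (by fun_prop) (by fun_prop) (by fun_prop)) _
  have h2 : MeasurableSet {q : X3 × (ℝ × ℝ) | decide (0 < dt q.1.2.1 q.1.2.2 q.2) = s.2.1} :=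
    dec_meas (dt_meas (by fun_prop) (by fun_prop) (by fun_prop)) _
  have h3 : MeasurableSet {q : X3 × (ℝ × ℝ) | decide (0 < dt q.1.2.2 q.1.1 q.2) = s.2.2} :=
    dec_meas (dt_meas (by fun_prop) (by fun_prop) (by fun_prop)) _
  have : WS E s = WW E ∩ ({q : X3 × (ℝ × ℝ) | decide (0 < dt q.1.1 q.1.2.1 q.2) = s.1} ∩
      ({q : X3 × (ℝ × ℝ) | decide (0 < dt q.1.2.1 q.1.2.2 q.2) = s.2.1} ∩
      {q : X3 × (ℝ × ℝ) | decide (0 < dt q.1.2.2 q.1.1 q.2) = s.2.2})) := by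
    ext q
    obtain ⟨a, b, c⟩ := s
    simp only [WS, sig, mem_ofPred_eq, mem_inter_iff, Prod.mk.injEq]
  rw [this]
  exact (WW_meas hE).inter (h1.inter (h2.inter h3))

lemma HH_meas (hE : MeasurableSet E) (s : Bool × Bool × Bool) : MeasurableSet (HH E s) :=
  ((by fun_prop : Measurable fun p : X3 × ((ℝ × ℝ) × (ℝ × ℝ)) => (p.1, p.2.1))
    (WS_meas hE s)).inter
  ((by fun_prop : Measurable fun p : X3 × ((ℝ × ℝ) × (ℝ × ℝ)) => (p.1, p.2.2)) (WS_meas hE s))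

variable {ν : Measure (ℝ × ℝ)} [IsProbabilityMeasure ν]

lemma W_low (hE : MeasurableSet E) {e : NNReal} (he : (e : ENNReal) ≤ (ν.prod ν) E) :
    (e : ENNReal) ^ 3 ≤ ((ν.prod (ν.prod ν)).prod ν) (WW E) := by
  rw [Measure.prod_apply_symm (WW_meas hE)]
  have h1 : ∀ y, (ν.prod (ν.prod ν)) ((fun x : X3 => (x, y)) ⁻¹' WW E) =
      (ν ((fun x => (x, y)) ⁻¹' E)) ^ 3 := by
    intro y
    have : (fun x : X3 => (x, y)) ⁻¹' WW E = ((fun x => (x, y)) ⁻¹' E) ×ˢ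
        (((fun x => (x, y)) ⁻¹' E) ×ˢ ((fun x => (x, y)) ⁻¹' E)) := rfl
    rw [this, Measure.prod_prod, Measure.prod_prod]
    ring
  simp_rw [h1]
  have h2 : 3 * (e : ENNReal) ^ 2 * (ν.prod ν) E ≤
      ∫⁻ y, (ν ((fun x => (x, y)) ⁻¹' E)) ^ 3 ∂ν + 2 * (e : ENNReal) ^ 3 := by
    rw [Measure.prod_apply_symm hE, ← lintegral_const_mul _ (measurable_measure_prodMk_right hE)]
    calc _ ≤ ∫⁻ y, ((ν ((fun x => (x, y)) ⁻¹' E)) ^ 3 + 2 * (e : ENNReal) ^ 3) ∂ν := by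
          apply lintegral_mono
          intro y
          simp only
          lift ν ((fun x => (x, y)) ⁻¹' E) to NNReal using measure_ne_top _ _ with v
          exact t3 v e
      _ = _ := by
          rw [lintegral_add_right _ measurable_const]
          simp
  have h3 : (e : ENNReal) ^ 3 + 2 * (e : ENNReal) ^ 3 ≤
      ∫⁻ y, (ν ((fun x => (x, y)) ⁻¹' E)) ^ 3 ∂ν + 2 * (e : ENNReal) ^ 3 := by
    refine le_trans ?_ h2
    calc (e : ENNReal) ^ 3 + 2 * (e : ENNReal) ^ 3 = 3 * (e : ENNReal) ^ 2 * e := by ring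
      _ ≤ _ := by gcongr
  exact (ENNReal.add_le_add_iff_right (by finiteness)).mp h3

lemma H_eq (hE : MeasurableSet E) (s : Bool × Bool × Bool) :
    M5 ν (HH E s) = ∫⁻ x, (ν (Prod.mk x ⁻¹' WS E s)) ^ 2 ∂(ν.prod (ν.prod ν)) := by
  unfold M5
  rw [Measure.prod_apply (HH_meas hE s)]
  congr 1
  funext x
  have : Prod.mk x ⁻¹' HH E s = (Prod.mk x ⁻¹' WS E s) ×ˢ (Prod.mk x ⁻¹' WS E s) := rfl
  rw [this, Measure.prod_prod, sq]

lemma H_low (hE : MeasurableSet E) {e : NNReal} (he : (e : ENNReal) ≤ (ν.prod ν) E) :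
    ((e ^ 6 / 8 : NNReal) : ENNReal) ≤ M5 ν (⋃ s, HH E s) := by
  obtain ⟨c, hc⟩ : ∃ c : NNReal, c = e ^ 3 / 8 := ⟨_, rfl⟩
  have h1 : ∀ s, 2 * (c : ENNReal) * ((ν.prod (ν.prod ν)).prod ν) (WS E s) ≤
      M5 ν (HH E s) + (c : ENNReal) ^ 2 := by
    intro s
    rw [H_eq hE, Measure.prod_apply (WS_meas hE s),
      ← lintegral_const_mul _ (measurable_measure_prodMk_left (WS_meas hE s))]
    calc _ ≤ ∫⁻ x, ((ν (Prod.mk x ⁻¹' WS E s)) ^ 2 + (c : ENNReal) ^ 2) ∂(ν.prod (ν.prod ν)) := by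
          apply lintegral_mono
          intro x
          simp only
          lift ν (Prod.mk x ⁻¹' WS E s) to NNReal using measure_ne_top _ _ with v
          exact t2 v c
      _ = _ := by
          rw [lintegral_add_right _ measurable_const]
          simp
  have h2 : ((ν.prod (ν.prod ν)).prod ν) (WW E) ≤ ∑ s, ((ν.prod (ν.prod ν)).prod ν) (WS E s) := by
    have : WW E = ⋃ s, WS E s := by
      ext q
      simp only [WS, mem_iUnion, mem_ofPred_eq]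
      constructor
      · intro h; exact ⟨_, h, rfl⟩
      · rintro ⟨s, h, -⟩; exact h
    rw [this]
    exact measure_iUnion_fintype_le _ _
  have h3 : M5 ν (⋃ s, HH E s) = ∑ s, M5 ν (HH E s) := by
    rw [measure_iUnion, tsum_fintype]
    · intro s t hst
      apply Set.disjoint_left.mpr
      rintro p ⟨⟨-, h4⟩, -⟩ ⟨⟨-, h5⟩, -⟩
      exact hst (h4.symm.trans h5)
    · exact fun s => HH_meas hE s
  have h4 := W_low hE he
  have h5 : 2 * (c : ENNReal) * (e : ENNReal) ^ 3 ≤ M5 ν (⋃ s, HH E s) + 8 * (c : ENNReal) ^ 2 := by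
    calc 2 * (c : ENNReal) * (e : ENNReal) ^ 3 ≤
        2 * (c : ENNReal) * ∑ s, ((ν.prod (ν.prod ν)).prod ν) (WS E s) := by
          gcongr
          exact h4.trans h2
      _ = ∑ s, 2 * (c : ENNReal) * ((ν.prod (ν.prod ν)).prod ν) (WS E s) := Finset.mul_sum _ _ _
      _ ≤ ∑ s, (M5 ν (HH E s) + (c : ENNReal) ^ 2) := Finset.sum_le_sum fun s _ => h1 s
      _ = _ := by
          rw [Finset.sum_add_distrib, h3, Finset.sum_const]
          simp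
  have h6 : 2 * (c : ENNReal) * (e : ENNReal) ^ 3 = ((e ^ 6 / 8 : NNReal) : ENNReal) +
      8 * (c : ENNReal) ^ 2 := by
    have : 2 * c * e ^ 3 = e ^ 6 / 8 + 8 * c ^ 2 := by
      rw [hc, ← NNReal.coe_inj]
      push_cast
      ring
    exact_mod_cast congrArg (fun r : NNReal => (r : ENNReal)) this
  rw [h6] at h5
  exact (ENNReal.add_le_add_iff_right (by finiteness)).mp h5

/-- the existence of a triangle, for a probability measure -/
lemma exists_tri {S : Set (ℝ × ℝ)} {κ : ENNReal} {τ : ℝ} (hτ : 0 < τ)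
    (hE : MeasurableSet E) (hES : ∀ x y, (x, y) ∈ E → segment ℝ x y ⊆ S)
    {e : NNReal} (he : (e : ENNReal) ≤ (ν.prod ν) E)
    (hκ : ∀ x y : ℝ × ℝ, ν {z | |z.1 - x.1| ≤ |y.1 - x.1| ∧ |dt x y z| ≤ τ} ≤ κ)
    (hlt : 20 * κ < ((e ^ 6 / 8 : NNReal) : ENNReal)) : Tri S τ := by
  by_contra hcon
  have hsub : (⋃ s, HH E s) ⊆ {p | |dt p.1.1 p.1.2.1 p.1.2.2| ≤ τ ∨ |dt p.1.1 p.2.1 p.2.2| ≤ τ ∨
      |dt p.1.2.1 p.2.1 p.2.2| ≤ τ ∨ |dt p.1.2.2 p.2.1 p.2.2| ≤ τ ∨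
      |dt p.1.1 p.1.2.1 p.2.1| ≤ τ ∨ |dt p.1.2.1 p.1.2.2 p.2.1| ≤ τ ∨
      |dt p.1.2.2 p.1.1 p.2.1| ≤ τ ∨ |dt p.1.1 p.1.2.1 p.2.2| ≤ τ ∨
      |dt p.1.2.1 p.1.2.2 p.2.2| ≤ τ ∨ |dt p.1.2.2 p.1.1 p.2.2| ≤ τ} := by
    intro p hp
    obtain ⟨s, ⟨⟨a1, a2, a3⟩, b⟩, ⟨⟨a1', a2', a3'⟩, b'⟩⟩ := mem_iUnion.mp hp
    by_contra hno
    simp only [mem_ofPred_eq, not_or, not_le] at hno
    obtain ⟨n0, n1, n2, n3, n4, n5, n6, n7, n8, n9⟩ := hno
    apply hcon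
    have hs := b.trans b'.symm
    simp only [sig, Prod.mk.injEq, decide_eq_decide] at hs
    have hpos : ∀ {u v : ℝ}, τ < |u| → τ < |v| → (0 < u ↔ 0 < v) → 0 < u * v := by
      intro u v hu hv huv
      have hu0 : u ≠ 0 := by rintro rfl; rw [abs_zero] at hu; linarith
      have hv0 : v ≠ 0 := by rintro rfl; rw [abs_zero] at hv; linarith
      by_cases h : 0 < u
      · exact mul_pos h (huv.mp h)
      · have h1 : u < 0 := lt_of_le_of_ne (not_lt.mp h) hu0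
        have h2 : v < 0 := lt_of_le_of_ne (not_lt.mp (fun h' => h (huv.mpr h'))) hv0
        exact mul_pos_of_neg_of_neg h1 h2
    exact five_points hτ n0.le (hpos n4 n7 hs.1) (hpos n5 n8 hs.2.1) (hpos n6 n9 hs.2.2)
      (hES _ _ a1) (hES _ _ a1') (hES _ _ a2) (hES _ _ a2') (hES _ _ a3) (hES _ _ a3')
      n1.le n2.le n3.le n4.le n5.le n6.le n7.le n8.le n9.le
  have h1 := H_low hE he
  have h2 := (measure_mono (μ := M5 ν) hsub).trans (bad_sum hκ)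
  exact absurd (h1.trans h2) (not_le.mpr hlt)

end Pool.Agent.R515.BI
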