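import Pool.Agent.R515.BI.Geo

/-!
Measure part (Beer index).
-/

set_option autoImplicit false

namespace Pool.Agent.R515.BI

open MeasureTheory Set

lemma dt_meas {α : Type*} [MeasurableSpace α] {f g h : α → ℝ × ℝ} (hf : Measurable f)
    (hg : Measurable g) (hh : Measurable h) : Measurable (fun a => dt (f a) (g a) (h a)) := by
  unfold dt; fun_prop

lemma strip (x y : ℝ × ℝ) {τ : ℝ} (hτ : 0 < τ) :
    volume {z : ℝ × ℝ | |z.1 - x.1| ≤ |y.1 - x.1| ∧ |dt x y z| ≤ τ} ≤ ENNReal.ofReal (4 * τ) := by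
  have hm : MeasurableSet {z : ℝ × ℝ | |z.1 - x.1| ≤ |y.1 - x.1| ∧ |dt x y z| ≤ τ} := by
    exact (measurableSet_le (f := fun z : ℝ × ℝ => |z.1 - x.1|) (g := fun _ => |y.1 - x.1|)
      (by fun_prop) (by fun_prop)).inter (measurableSet_le
        ((dt_meas measurable_const measurable_const measurable_id).abs) measurable_const)
  obtain ⟨d, hd⟩ : ∃ d, d = |y.1 - x.1| := ⟨_, rfl⟩
  rw [← hd]
  rw [← hd] at hm
  rw [Measure.volume_eq_prod, Measure.prod_apply hm]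
  have h1 : ∀ a : ℝ, volume (Prod.mk a ⁻¹' {z : ℝ × ℝ | |z.1 - x.1| ≤ d ∧ |dt x y z| ≤ τ}) ≤
      (Icc (x.1 - d) (x.1 + d)).indicator (fun _ => ENNReal.ofReal (2 * τ / d) + (if d = 0 then ⊤ else 0)) a := by
    intro a
    by_cases ha : |a - x.1| ≤ d
    · have hmem : a ∈ Icc (x.1 - d) (x.1 + d) := by
        rw [abs_le] at ha
        exact ⟨by linarith, by linarith⟩
      rw [Set.indicator_of_mem hmem]
      by_cases hd0 : d = 0
      · simp [hd0]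
      · rw [if_neg hd0, add_zero]
        have hdp : 0 < d := lt_of_le_of_ne (by rw [hd]; exact abs_nonneg _) (Ne.symm hd0)
        obtain ⟨m, hm'⟩ : ∃ m, m = y.1 - x.1 := ⟨_, rfl⟩
        have hm0 : m ≠ 0 := by
          rintro rfl
          rw [← hm', abs_zero] at hd
          exact hd0 hd
        have hsub : Prod.mk a ⁻¹' {z : ℝ × ℝ | |z.1 - x.1| ≤ d ∧ |dt x y z| ≤ τ} ⊆
            Icc (x.2 + (y.2 - x.2) * (a - x.1) / m - τ / d)
              (x.2 + (y.2 - x.2) * (a - x.1) / m + τ / d) := by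
          rintro b ⟨-, hb⟩
          simp only [dt] at hb
          rw [← hm'] at hb
          have e : m * (b - x.2) - (y.2 - x.2) * (a - x.1) =
              m * (b - (x.2 + (y.2 - x.2) * (a - x.1) / m)) := by
            field_simp
            ring
          rw [e, abs_mul, hm', ← hd, ← hm'] at hb
          have h2 : |b - (x.2 + (y.2 - x.2) * (a - x.1) / m)| ≤ τ / d := by
            rw [le_div_iff₀ hdp]; linarith
          rw [abs_le] at h2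
          exact ⟨by linarith [h2.1], by linarith [h2.2]⟩
        refine (measure_mono hsub).trans ?_
        rw [Real.volume_Icc]
        apply ENNReal.ofReal_le_ofReal
        apply le_of_eq
        ring
    · have : Prod.mk a ⁻¹' {z : ℝ × ℝ | |z.1 - x.1| ≤ d ∧ |dt x y z| ≤ τ} = ∅ := by
        ext b
        simp only [mem_preimage, mem_ofPred_eq, mem_empty_iff_false, iff_false, not_and]
        intro h
        exact absurd h ha
      rw [this, measure_empty]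
      exact bot_le
  refine (lintegral_mono h1).trans ?_
  rw [lintegral_indicator measurableSet_Icc, setLIntegral_const, Real.volume_Icc]
  by_cases hd0 : d = 0
  · rw [hd0]; simp
  · have hdp : 0 < d := lt_of_le_of_ne (by rw [hd]; exact abs_nonneg _) (Ne.symm hd0)
    rw [if_neg hd0, add_zero, ← ENNReal.ofReal_mul (by positivity)]
    apply ENNReal.ofReal_le_ofReal
    apply le_of_eq
    field_simp
    ring

section
variable {ν : Measure (ℝ × ℝ)} [IsProbabilityMeasure ν] {κ : ENNReal} {τ : ℝ}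

lemma tri_prob (hκ : ∀ x y : ℝ × ℝ, ν {z | |z.1 - x.1| ≤ |y.1 - x.1| ∧ |dt x y z| ≤ τ} ≤ κ) :
    (ν.prod (ν.prod ν)) {p | |dt p.1 p.2.1 p.2.2| ≤ τ} ≤ 2 * κ := by
  have m1 : MeasurableSet {p : (ℝ × ℝ) × (ℝ × ℝ) × (ℝ × ℝ) |
      |p.2.2.1 - p.1.1| ≤ |p.2.1.1 - p.1.1| ∧ |dt p.1 p.2.1 p.2.2| ≤ τ} := by
    exact (measurableSet_le (f := fun p : (ℝ × ℝ) × (ℝ × ℝ) × (ℝ × ℝ) => |p.2.2.1 - p.1.1|)
      (g := fun p => |p.2.1.1 - p.1.1|) (by fun_prop) (by fun_prop)).inter (measurableSet_le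
        ((dt_meas (by fun_prop) (by fun_prop) (by fun_prop)).abs) measurable_const)
  have m2 : MeasurableSet {p : (ℝ × ℝ) × (ℝ × ℝ) × (ℝ × ℝ) |
      |p.2.1.1 - p.1.1| ≤ |p.2.2.1 - p.1.1| ∧ |dt p.1 p.2.2 p.2.1| ≤ τ} := by
    exact (measurableSet_le (f := fun p : (ℝ × ℝ) × (ℝ × ℝ) × (ℝ × ℝ) => |p.2.1.1 - p.1.1|)
      (g := fun p => |p.2.2.1 - p.1.1|) (by fun_prop) (by fun_prop)).inter (measurableSet_le
        ((dt_meas (by fun_prop) (by fun_prop) (by fun_prop)).abs) measurable_const)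
  have hsub : {p : (ℝ × ℝ) × (ℝ × ℝ) × (ℝ × ℝ) | |dt p.1 p.2.1 p.2.2| ≤ τ} ⊆
      {p | |p.2.2.1 - p.1.1| ≤ |p.2.1.1 - p.1.1| ∧ |dt p.1 p.2.1 p.2.2| ≤ τ} ∪
      {p | |p.2.1.1 - p.1.1| ≤ |p.2.2.1 - p.1.1| ∧ |dt p.1 p.2.2 p.2.1| ≤ τ} := by
    intro p hp
    rcases le_total |p.2.2.1 - p.1.1| |p.2.1.1 - p.1.1| with h | h
    · exact Or.inl ⟨h, hp⟩
    · refine Or.inr ⟨h, ?_⟩
      rw [dt_swap, abs_neg]
      exact hp
  have h1 : (ν.prod (ν.prod ν)) {p : (ℝ × ℝ) × (ℝ × ℝ) × (ℝ × ℝ) |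
      |p.2.2.1 - p.1.1| ≤ |p.2.1.1 - p.1.1| ∧ |dt p.1 p.2.1 p.2.2| ≤ τ} ≤ κ := by
    rw [Measure.prod_apply m1]
    calc _ ≤ ∫⁻ _ : ℝ × ℝ, κ ∂ν := by
          apply lintegral_mono
          intro x
          simp only
          rw [Measure.prod_apply (measurable_prodMk_left m1)]
          calc _ ≤ ∫⁻ _ : ℝ × ℝ, κ ∂ν := lintegral_mono fun y => hκ x y
            _ = κ := by simp
      _ = κ := by simp
  have h2 : (ν.prod (ν.prod ν)) {p : (ℝ × ℝ) × (ℝ × ℝ) × (ℝ × ℝ) |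
      |p.2.1.1 - p.1.1| ≤ |p.2.2.1 - p.1.1| ∧ |dt p.1 p.2.2 p.2.1| ≤ τ} ≤ κ := by
    rw [Measure.prod_apply m2]
    calc _ ≤ ∫⁻ _ : ℝ × ℝ, κ ∂ν := by
          apply lintegral_mono
          intro x
          simp only
          rw [Measure.prod_apply_symm (measurable_prodMk_left m2)]
          calc _ ≤ ∫⁻ _ : ℝ × ℝ, κ ∂ν := lintegral_mono fun y => hκ x y
            _ = κ := by simp
      _ = κ := by simp
  calc _ ≤ _ := measure_mono hsub
    _ ≤ _ := measure_union_le _ _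
    _ ≤ κ + κ := add_le_add h1 h2
    _ = 2 * κ := (two_mul κ).symm

/-- the type of the first three points -/
abbrev X3 : Type := (ℝ × ℝ) × (ℝ × ℝ) × (ℝ × ℝ)

/-- the measure on five points -/
noncomputable def M5 (ν : Measure (ℝ × ℝ)) : Measure (X3 × ((ℝ × ℝ) × (ℝ × ℝ))) :=
  (ν.prod (ν.prod ν)).prod (ν.prod ν)

lemma bad_of (hκ : ∀ x y : ℝ × ℝ, ν {z | |z.1 - x.1| ≤ |y.1 - x.1| ∧ |dt x y z| ≤ τ} ≤ κ)
    {π : X3 × ((ℝ × ℝ) × (ℝ × ℝ)) → (ℝ × ℝ) × (ℝ × ℝ) × (ℝ × ℝ)}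
    (hπ : MeasurePreserving π (M5 ν) (ν.prod (ν.prod ν))) :
    M5 ν {p | |dt (π p).1 (π p).2.1 (π p).2.2| ≤ τ} ≤ 2 * κ := by
  have hm : MeasurableSet {p : (ℝ × ℝ) × (ℝ × ℝ) × (ℝ × ℝ) | |dt p.1 p.2.1 p.2.2| ≤ τ} :=
    measurableSet_le ((dt_meas (by fun_prop) (by fun_prop) (by fun_prop)).abs) measurable_const
  have := hπ.measure_preimage hm.nullMeasurableSet
  change M5 ν (π ⁻¹' {p : (ℝ × ℝ) × (ℝ × ℝ) × (ℝ × ℝ) | |dt p.1 p.2.1 p.2.2| ≤ τ}) ≤ _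
  rw [this]
  exact tri_prob hκ

lemma e1 : MeasurePreserving (fun x : X3 => x.1) (ν.prod (ν.prod ν)) ν := measurePreserving_fst
lemma e2 : MeasurePreserving (fun x : X3 => x.2.1) (ν.prod (ν.prod ν)) ν :=
  measurePreserving_fst.comp measurePreserving_snd
lemma e3 : MeasurePreserving (fun x : X3 => x.2.2) (ν.prod (ν.prod ν)) ν :=
  measurePreserving_snd.comp measurePreserving_snd
lemma e12 : MeasurePreserving (fun x : X3 => (x.1, x.2.1)) (ν.prod (ν.prod ν)) (ν.prod ν) :=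
  (MeasurePreserving.id ν).prod measurePreserving_fst
lemma e23 : MeasurePreserving (fun x : X3 => (x.2.1, x.2.2)) (ν.prod (ν.prod ν)) (ν.prod ν) :=
  measurePreserving_snd
lemma e31 : MeasurePreserving (fun x : X3 => (x.2.2, x.1)) (ν.prod (ν.prod ν)) (ν.prod ν) :=
  Measure.measurePreserving_swap.comp ((MeasurePreserving.id ν).prod measurePreserving_snd)

lemma bad_sum (hκ : ∀ x y : ℝ × ℝ, ν {z | |z.1 - x.1| ≤ |y.1 - x.1| ∧ |dt x y z| ≤ τ} ≤ κ) :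
    M5 ν {p | |dt p.1.1 p.1.2.1 p.1.2.2| ≤ τ ∨ |dt p.1.1 p.2.1 p.2.2| ≤ τ ∨
      |dt p.1.2.1 p.2.1 p.2.2| ≤ τ ∨ |dt p.1.2.2 p.2.1 p.2.2| ≤ τ ∨
      |dt p.1.1 p.1.2.1 p.2.1| ≤ τ ∨ |dt p.1.2.1 p.1.2.2 p.2.1| ≤ τ ∨
      |dt p.1.2.2 p.1.1 p.2.1| ≤ τ ∨ |dt p.1.1 p.1.2.1 p.2.2| ≤ τ ∨
      |dt p.1.2.1 p.1.2.2 p.2.2| ≤ τ ∨ |dt p.1.2.2 p.1.1 p.2.2| ≤ τ} ≤ 20 * κ := by
  have h0 := bad_of hκ (π := fun p => p.1) measurePreserving_fst
  have h1 := bad_of hκ (π := fun p => (p.1.1, p.2)) (e1.prod (MeasurePreserving.id _))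
  have h2 := bad_of hκ (π := fun p => (p.1.2.1, p.2)) (e2.prod (MeasurePreserving.id _))
  have h3 := bad_of hκ (π := fun p => (p.1.2.2, p.2)) (e3.prod (MeasurePreserving.id _))
  have h4 := bad_of hκ (π := fun p => (p.1.1, (p.1.2.1, p.2.1)))
    ((measurePreserving_prodAssoc ν ν ν).comp (e12.prod measurePreserving_fst))
  have h5 := bad_of hκ (π := fun p => (p.1.2.1, (p.1.2.2, p.2.1)))
    ((measurePreserving_prodAssoc ν ν ν).comp (e23.prod measurePreserving_fst))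
  have h6 := bad_of hκ (π := fun p => (p.1.2.2, (p.1.1, p.2.1)))
    ((measurePreserving_prodAssoc ν ν ν).comp (e31.prod measurePreserving_fst))
  have h7 := bad_of hκ (π := fun p => (p.1.1, (p.1.2.1, p.2.2)))
    ((measurePreserving_prodAssoc ν ν ν).comp (e12.prod measurePreserving_snd))
  have h8 := bad_of hκ (π := fun p => (p.1.2.1, (p.1.2.2, p.2.2)))
    ((measurePreserving_prodAssoc ν ν ν).comp (e23.prod measurePreserving_snd))
  have h9 := bad_of hκ (π := fun p => (p.1.2.2, (p.1.1, p.2.2)))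
    ((measurePreserving_prodAssoc ν ν ν).comp (e31.prod measurePreserving_snd))
  have hU : ∀ (A B : Set (X3 × ((ℝ × ℝ) × (ℝ × ℝ)))) (a b : ENNReal), M5 ν A ≤ a → M5 ν B ≤ b →
      M5 ν (A ∪ B) ≤ a + b := fun A B a b ha hb => (measure_union_le _ _).trans (add_le_add ha hb)
  have := hU _ _ _ _ h0 (hU _ _ _ _ h1 (hU _ _ _ _ h2 (hU _ _ _ _ h3 (hU _ _ _ _ h4
    (hU _ _ _ _ h5 (hU _ _ _ _ h6 (hU _ _ _ _ h7 (hU _ _ _ _ h8 h9))))))))
  refine this.trans (le_of_eq ?_)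
  ring

end

end Pool.Agent.R515.BI
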